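import Pool.Agent.W2helper89.MC.Stm

/-! # Project MC, piece COD -/

set_option autoImplicit false

universe u

namespace Pool.Agent.W2helper59.MC

open Pool.Agent.Helper743 (TR RecT join pre Computable.recT RecT.comp RecT.pair RecT.prec RecT.find)
open Pool.Agent.Helper425.PA
open Pool.Agent.W2helper89.MC

section rec

variable {O : Set (ℕ →. ℕ)}

theorem recT_comp1 {F : ℕ → ℕ} (hF : Computable F) {f : ℕ → ℕ} (hf : RecT O f) :
    RecT O (fun n => F (f n)) := (Computable.recT hF).comp hf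

theorem recT_id : RecT O (fun n => n) := Computable.recT Computable.id

theorem recT_fst {f : ℕ → ℕ} (hf : RecT O f) : RecT O (fun n => (f n).unpair.1) :=
  recT_comp1 (F := fun n => n.unpair.1) (Computable.fst.comp Computable.unpair) hf

theorem recT_snd {f : ℕ → ℕ} (hf : RecT O f) : RecT O (fun n => (f n).unpair.2) :=
  recT_comp1 (F := fun n => n.unpair.2) (Computable.snd.comp Computable.unpair) hf

theorem recT_const (c : ℕ) : RecT O (fun _ => c) := Computable.recT (Computable.const c)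

theorem recT_succ {f : ℕ → ℕ} (hf : RecT O f) : RecT O (fun n => f n + 1) :=
  recT_comp1 (F := fun n => n + 1) Computable.succ hf

/-- simple primitive recursion -/
theorem recT_rec (c : ℕ) {h : ℕ → ℕ} (hh : RecT O h) :
    RecT O (fun n => (Nat.rec c (fun y ih => h (Nat.pair y ih)) n : ℕ)) := by
  have h1 : RecT O (fun z : ℕ => h z.unpair.2) := hh.comp (recT_snd recT_id)
  have h2 := (RecT.prec (recT_const (O := O) c) h1).comp
    (RecT.pair (recT_const (O := O) 0) (recT_id (O := O)))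
  refine Nat.RecursiveIn.of_eq h2 ?_
  intro n
  simp only [Nat.unpair_pair]

end rec

section model

variable {M : Type u} [CommSemiring M] [LinearOrder M] [PeanoModel M]

open Classical in
theorem dec4 {x : ℕ → M} {e a : ℕ → ℕ} (he : Full x e) (hea : TR e a)
    (R : M → M → M → M → Prop) (hR : Arith (fun v : ℕ → M => R (v 0) (v 1) (v 2) (v 3)))
    {f0 f1 f2 f3 : ℕ → ℕ} (h0 : TR f0 a) (h1 : TR f1 a) (h2 : TR f2 a) (h3 : TR f3 a) :
    TR (fun n => if R (x (f0 n)) (x (f1 n)) (x (f2 n)) (x (f3 n)) then 1 else 0) a := by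
  have hχ : TR (fun k => if (fun v : ℕ → M => R (v 0) (v 1) (v 2) (v 3)) (asg x k) then 1 else 0)
      a := TR.trans (he _ hR) hea
  have hl : Computable (fun z : ℕ => Encodable.encode
      [z.unpair.1, z.unpair.2.unpair.1, z.unpair.2.unpair.2.unpair.1,
        z.unpair.2.unpair.2.unpair.2]) := by
    have p1 : Primrec (fun z : ℕ => z.unpair.1) := Primrec.fst.comp Primrec.unpair
    have p2 : Primrec (fun z : ℕ => z.unpair.2) := Primrec.snd.comp Primrec.unpair
    refine (Primrec.encode.comp (Primrec.list_cons.comp p1 (Primrec.list_cons.comp (p1.comp p2)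
      (Primrec.list_cons.comp (p1.comp (p2.comp p2)) (Primrec.list_cons.comp
        (p2.comp (p2.comp p2)) (Primrec.const [])))))).to_comp
  have h4 := RecT.comp hχ (recT_comp1 hl (RecT.pair h0 (RecT.pair h1 (RecT.pair h2 h3))))
  refine Nat.RecursiveIn.of_eq h4 ?_
  intro n
  simp [asg]

/-- search -/
theorem find4 {x : ℕ → M} {e a : ℕ → ℕ} (he : Full x e) (hea : TR e a)
    (R : M → M → M → M → Prop) (hR : Arith (fun v : ℕ → M => R (v 0) (v 1) (v 2) (v 3)))
    {f1 f2 f3 : ℕ → ℕ} (h1 : TR f1 a) (h2 : TR f2 a) (h3 : TR f3 a)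
    (hex : ∀ n, ∃ j, R (x j) (x (f1 n)) (x (f2 n)) (x (f3 n))) :
    ∃ g : ℕ → ℕ, TR g a ∧ ∀ n, R (x (g n)) (x (f1 n)) (x (f2 n)) (x (f3 n)) := by
  classical
  have hd := dec4 he hea (fun p q r s => ¬ R p q r s) hR.not
    (f0 := fun z => z.unpair.2) (f1 := fun z => f1 z.unpair.1) (f2 := fun z => f2 z.unpair.1)
    (f3 := fun z => f3 z.unpair.1) (recT_snd recT_id) (h1.comp (recT_fst recT_id))
    (h2.comp (recT_fst recT_id)) (h3.comp (recT_fst recT_id))
  obtain ⟨q, hq, hq'⟩ : ∃ q : ℕ → ℕ, TR q a ∧ ∀ z, q z = 0 ↔ R (x z.unpair.2)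
      (x (f1 z.unpair.1)) (x (f2 z.unpair.1)) (x (f3 z.unpair.1)) := by
    refine ⟨_, hd, fun z => ?_⟩
    simp only [ite_eq_right_iff, one_ne_zero, imp_false, not_not]
  have hex' : ∀ n, ∃ j, q (Nat.pair n j) = 0 := by
    intro n
    obtain ⟨j, hj⟩ := hex n
    refine ⟨j, (hq' _).2 ?_⟩
    simp only [Nat.unpair_pair]
    exact hj
  refine ⟨_, RecT.find hq hex', fun n => ?_⟩
  have := (hq' _).1 (Nat.find_spec (hex' n))
  simp only [Nat.unpair_pair] at this
  exact this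

/-- the members of the coding set -/
def En (x : ℕ → M) (a : ℕ → ℕ) : ℕ → M
  | 0 => pr (x 0) (pr ((0 : ℕ) : M) (pr (x 0) (a 0 : M)))
  | n + 1 => pr (En x a n + x (n + 1) + 1) (pr ((n + 1 : ℕ) : M) (pr (x (n + 1)) (a (n + 1) : M)))

theorem En_form (x : ℕ → M) (a : ℕ → ℕ) (n : ℕ) :
    ∃ z, En x a n = pr z (pr (n : M) (pr (x n) (a n : M))) := by
  cases n with
  | zero => exact ⟨_, rfl⟩
  | succ n => exact ⟨_, rfl⟩

theorem En_lt (x : ℕ → M) (a : ℕ → ℕ) (n : ℕ) : En x a n < En x a (n + 1) := by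
  have h1 : En x a n + x (n + 1) + 1 ≤ En x a (n + 1) := le_pr_left _ _
  refine lt_of_lt_of_le ?_ h1
  exact lt_of_le_of_lt le_self_add (lt_add_one _)

theorem le_En (x : ℕ → M) (a : ℕ → ℕ) (n : ℕ) : x n ≤ En x a n := by
  cases n with
  | zero => exact le_pr_left _ _
  | succ n =>
    have h1 : En x a n + x (n + 1) + 1 ≤ En x a (n + 1) := le_pr_left _ _
    refine le_trans ?_ h1
    rw [add_right_comm]
    exact le_add_self

theorem En_mono (x : ℕ → M) (a : ℕ → ℕ) : StrictMono (En x a) :=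
  strictMono_nat_of_lt_succ (En_lt x a)

/-- the coding set -/
def Ac (x : ℕ → M) (a : ℕ → ℕ) : Set M := Set.range (En x a)

theorem exists_single (z : M) : ∃ k : M, ∀ y, Mem y k ↔ y = z :=
  exists_code (fun y => y = z) (Arith.eq (Tm.var 0) (Tm.const z)) (z + 1)
    (fun y hy => by rw [hy]; exact lt_add_one z)

theorem exists_empty : ∃ k : M, ∀ y, ¬ Mem y k := by
  obtain ⟨k, hk⟩ := exists_code (fun _ : M => False) (Arith.const False) 0 (fun y hy => hy.elim)
  exact ⟨k, fun y hy => (hk y).1 hy⟩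

theorem exists_insert (k z : M) : ∃ k' : M, ∀ y, Mem y k' ↔ (Mem y k ∨ y = z) := by
  refine exists_code (fun y => Mem y k ∨ y = z) ?_ (k + z + 1) ?_
  · exact (Delta0.mem (Tm.var 0) (Tm.const k)).arith.or (Arith.eq (Tm.var 0) (Tm.const z))
  · rintro y (hy | hy)
    · exact lt_of_lt_of_le hy.lt (le_self_add.trans le_self_add)
    · rw [hy]
      exact lt_of_le_of_lt le_add_self (lt_add_one _)

theorem ce_Px (x : ℕ → M) (a : ℕ → ℕ) : CEin (Ac x a) (Px x) := by
  refine ⟨fun y H₀ _ => ∃ u z n w b : M, Mem u H₀ ∧ u = pr z (pr n (pr w b)) ∧ y = pr n w, ?_, ?_⟩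
  · refine Sigma1.ex' (Sigma1.ex' (Sigma1.ex' (Sigma1.ex' (Sigma1.ex' (Delta0.sigma1
      (Delta0.and ?_ (Delta0.and ?_ ?_)))))))
    · exact Delta0.mem (Tm.var 4) (Tm.var 6)
    · exact Delta0.eq (Tm.var 4) ((Tm.var 3).pr ((Tm.var 2).pr ((Tm.var 1).pr (Tm.var 0))))
    · exact Delta0.eq (Tm.var 5) ((Tm.var 2).pr (Tm.var 1))
  · intro y
    constructor
    · rintro ⟨n, rfl⟩
      obtain ⟨k, hk⟩ := exists_single (En x a n)
      obtain ⟨k', hk'⟩ := exists_empty (M := M)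
      obtain ⟨z, hz⟩ := En_form x a n
      refine ⟨k, k', ?_, ?_, En x a n, z, (n : M), x n, (a n : M), (hk _).2 rfl, hz, rfl⟩
      · intro y hy
        rw [(hk y).1 hy]
        exact ⟨n, rfl⟩
      · intro y hy
        exact absurd hy (hk' y)
    · rintro ⟨H₀, H₁, h0, -, u, z, n, w, b, hu, hz, hy⟩
      obtain ⟨i, hi⟩ := h0 hu
      obtain ⟨z', hz'⟩ := En_form x a i
      rw [hi, hz] at hz'
      obtain ⟨-, h1⟩ := pr_inj hz'
      obtain ⟨h2, h3⟩ := pr_inj h1
      obtain ⟨h4, -⟩ := pr_inj h3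
      exact ⟨i, by rw [hy, h2, h4]⟩

theorem ce_Gr (x : ℕ → M) (a : ℕ → ℕ) : CEin (Ac x a) (Gr M a) := by
  refine ⟨fun y H₀ _ => ∃ u z n w b : M, Mem u H₀ ∧ u = pr z (pr n (pr w b)) ∧ y = pr n b, ?_, ?_⟩
  · refine Sigma1.ex' (Sigma1.ex' (Sigma1.ex' (Sigma1.ex' (Sigma1.ex' (Delta0.sigma1
      (Delta0.and ?_ (Delta0.and ?_ ?_)))))))
    · exact Delta0.mem (Tm.var 4) (Tm.var 6)
    · exact Delta0.eq (Tm.var 4) ((Tm.var 3).pr ((Tm.var 2).pr ((Tm.var 1).pr (Tm.var 0))))
    · exact Delta0.eq (Tm.var 5) ((Tm.var 2).pr (Tm.var 0))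
  · intro y
    constructor
    · rintro ⟨n, rfl⟩
      obtain ⟨k, hk⟩ := exists_single (En x a n)
      obtain ⟨k', hk'⟩ := exists_empty (M := M)
      obtain ⟨z, hz⟩ := En_form x a n
      refine ⟨k, k', ?_, ?_, En x a n, z, (n : M), x n, (a n : M), (hk _).2 rfl, hz, rfl⟩
      · intro y hy
        rw [(hk y).1 hy]
        exact ⟨n, rfl⟩
      · intro y hy
        exact absurd hy (hk' y)
    · rintro ⟨H₀, H₁, h0, -, u, z, n, w, b, hu, hz, hy⟩
      obtain ⟨i, hi⟩ := h0 hu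
      obtain ⟨z', hz'⟩ := En_form x a i
      rw [hi, hz] at hz'
      obtain ⟨-, h1⟩ := pr_inj hz'
      obtain ⟨h2, h3⟩ := pr_inj h1
      obtain ⟨-, h4⟩ := pr_inj h3
      exact ⟨i, by rw [hy, h2, h4]⟩

/-- an index function of the numerals -/
theorem numerals {x : ℕ → M} (hx : Function.Surjective x) {e a : ℕ → ℕ} (he : Full x e)
    (hea : TR e a) : ∃ ν : ℕ → ℕ, TR ν a ∧ ∀ n, x (ν n) = (n : M) := by
  obtain ⟨j0, hj0⟩ := hx 0
  obtain ⟨g, hg, hg'⟩ := find4 he hea (fun p q _ _ => p = q + 1)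
    (Arith.eq (Tm.var 0) ((Tm.var 1).add (Tm.const 1)))
    (f1 := fun z => z.unpair.2) (f2 := fun _ => 0) (f3 := fun _ => 0)
    (recT_snd recT_id) (recT_const 0) (recT_const 0) (fun n => hx _)
  refine ⟨_, recT_rec j0 hg, fun n => ?_⟩
  induction n with
  | zero => simp [hj0]
  | succ n ih =>
    have := hg' (Nat.pair n (Nat.rec j0 (fun y ih => g (Nat.pair y ih)) n))
    simp only [Nat.unpair_pair] at this
    rw [this, ih, Nat.cast_succ]

/-- an index function of the members of the coding set -/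
theorem idx_En {x : ℕ → M} (hx : Function.Surjective x) {e a : ℕ → ℕ} (he : Full x e)
    (hea : TR e a) : ∃ J : ℕ → ℕ, TR J a ∧ ∀ n, x (J n) = En x a n := by
  obtain ⟨ν, hν, hν'⟩ := numerals hx he hea
  obtain ⟨ca, hca, hca'⟩ := find4 he hea (fun p q r s => p = pr q (pr r s))
    (Arith.eq (Tm.var 0) ((Tm.var 1).pr ((Tm.var 2).pr (Tm.var 3))))
    (f1 := ν) (f2 := fun n => n) (f3 := fun n => ν (a n))
    hν recT_id (hν.comp (TR.refl a)) (fun n => hx _)
  obtain ⟨j0, hj0⟩ := hx (En x a 0)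
  obtain ⟨g, hg, hg'⟩ := find4 he hea (fun p q r s => p = pr (q + r + 1) s)
    (Arith.eq (Tm.var 0) ((((Tm.var 1).add (Tm.var 2)).add (Tm.const 1)).pr (Tm.var 3)))
    (f1 := fun z => z.unpair.2) (f2 := fun z => z.unpair.1 + 1)
    (f3 := fun z => ca (z.unpair.1 + 1))
    (recT_snd recT_id) (recT_succ (recT_fst recT_id))
    (hca.comp (recT_succ (recT_fst recT_id))) (fun n => hx _)
  refine ⟨_, recT_rec j0 hg, fun n => ?_⟩
  induction n with
  | zero => exact hj0
  | succ n ih =>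
    have := hg' (Nat.pair n (Nat.rec j0 (fun y ih => g (Nat.pair y ih)) n))
    simp only [Nat.unpair_pair] at this
    rw [this, ih, hca', hν', hν']
    rfl

/-- an index function of the codes of the initial segments of the coding set -/
theorem idx_S {x : ℕ → M} (hx : Function.Surjective x) {e a : ℕ → ℕ} (he : Full x e)
    (hea : TR e a) : ∃ s : ℕ → ℕ, TR s a ∧
      ∀ n y, Mem y (x (s n)) ↔ ∃ i, i ≤ n ∧ y = En x a i := by
  obtain ⟨J, hJ, hJ'⟩ := idx_En hx he hea
  obtain ⟨k0, hk0⟩ := exists_single (En x a 0)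
  obtain ⟨j0, hj0⟩ := hx k0
  obtain ⟨g, hg, hg'⟩ := find4 he hea (fun p q r _ => ∀ y, Mem y p ↔ (Mem y q ∨ y = r))
    (Arith.all' (Arith.iff (Delta0.mem (Tm.var 0) (Tm.var 1)).arith
      ((Delta0.mem (Tm.var 0) (Tm.var 2)).arith.or (Arith.eq (Tm.var 0) (Tm.var 3)))))
    (f1 := fun z => z.unpair.2) (f2 := fun z => J (z.unpair.1 + 1)) (f3 := fun _ => 0)
    (recT_snd recT_id) (hJ.comp (recT_succ (recT_fst recT_id))) (recT_const 0)
    (fun n => by
      obtain ⟨k, hk⟩ := exists_insert (x n.unpair.2) (x (J (n.unpair.1 + 1)))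
      obtain ⟨j, rfl⟩ := hx k
      exact ⟨j, hk⟩)
  refine ⟨_, recT_rec j0 hg, fun n => ?_⟩
  induction n with
  | zero =>
    intro y
    show Mem y (x j0) ↔ _
    rw [hj0, hk0]
    constructor
    · intro h; exact ⟨0, le_rfl, h⟩
    · rintro ⟨i, hi, h⟩
      obtain rfl : i = 0 := by omega
      exact h
  | succ n ih =>
    intro y
    have := hg' (Nat.pair n (Nat.rec j0 (fun y ih => g (Nat.pair y ih)) n))
    simp only [Nat.unpair_pair] at this
    rw [this, ih, hJ']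
    constructor
    · rintro (⟨i, hi, h⟩ | h)
      · exact ⟨i, by omega, h⟩
      · exact ⟨n + 1, le_rfl, h⟩
    · rintro ⟨i, hi, h⟩
      rcases Nat.lt_or_ge i (n + 1) with h' | h'
      · exact Or.inl ⟨i, by omega, h⟩
      · obtain rfl : i = n + 1 := by omega
        exact Or.inr h

open Classical in
theorem tr_sh {x : ℕ → M} (hx : Function.Surjective x) {e a : ℕ → ℕ} (he : Full x e)
    (hea : TR e a) : TR (sh x (Ac x a)) a := by
  obtain ⟨s, hs, hs'⟩ := idx_S hx he hea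
  -- a member of the coding set in `El (x m)` is one of the first `m`
  have key : ∀ m y, Mem y (x m) → (y ∈ Ac x a ↔ Mem y (x (s m))) := by
    intro m y hy
    rw [hs']
    constructor
    · rintro ⟨i, rfl⟩
      refine ⟨i, ?_, rfl⟩
      have h1 : En x a i < En x a m := lt_of_lt_of_le hy.lt (le_En x a m)
      exact ((En_mono x a).lt_iff_lt.1 h1).le
    · rintro ⟨i, -, rfl⟩
      exact ⟨i, rfl⟩
  have c1 := dec4 he hea (fun p q _ _ => ∀ y, Mem y p → Mem y q)
    (Arith.all' (Arith.imp (Delta0.mem (Tm.var 0) (Tm.var 1)).arith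
      (Delta0.mem (Tm.var 0) (Tm.var 2)).arith))
    (f0 := fun n => n) (f1 := s) (f2 := fun _ => 0) (f3 := fun _ => 0)
    recT_id hs (recT_const 0) (recT_const 0)
  have c2 := dec4 he hea (fun p q _ _ => ∀ y, Mem y p → ¬ Mem y q)
    (Arith.all' (Arith.imp (Delta0.mem (Tm.var 0) (Tm.var 1)).arith
      (Delta0.mem (Tm.var 0) (Tm.var 2)).arith.not))
    (f0 := fun n => n) (f1 := s) (f2 := fun _ => 0) (f3 := fun _ => 0)
    recT_id hs (recT_const 0) (recT_const 0)
  have hdiv : Computable (fun k : ℕ => k / 2) :=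
    (Primrec.nat_div.comp Primrec.id (Primrec.const 2)).to_comp
  have hsel : Computable (fun z : ℕ =>
      if z.unpair.1 % 2 = 0 then z.unpair.2.unpair.1 else z.unpair.2.unpair.2) := by
    have p1 : Primrec (fun z : ℕ => z.unpair.1) := Primrec.fst.comp Primrec.unpair
    have p2 : Primrec (fun z : ℕ => z.unpair.2) := Primrec.snd.comp Primrec.unpair
    exact (Primrec.ite (Primrec.eq.comp (Primrec.nat_mod.comp p1 (Primrec.const 2))
      (Primrec.const 0)) (p1.comp p2) (p2.comp p2)).to_comp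
  have h5 := recT_comp1 hsel (RecT.pair (recT_id (O := {((a : ℕ → ℕ) : ℕ →. ℕ)}))
    (RecT.pair (RecT.comp c1 (Computable.recT hdiv)) (RecT.comp c2 (Computable.recT hdiv))))
  refine Nat.RecursiveIn.of_eq h5 ?_
  intro k
  simp only [Nat.unpair_pair]
  congr 1
  unfold sh
  have e1 : (El (x (k / 2)) ⊆ Ac x a) ↔ ∀ y, Mem y (x (k / 2)) → Mem y (x (s (k / 2))) := by
    constructor
    · intro h y hy; exact (key _ _ hy).1 (h hy)
    · intro h y hy; exact (key _ _ hy).2 (h y hy)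
  have e2 : (El (x (k / 2)) ⊆ (Ac x a)ᶜ) ↔
      ∀ y, Mem y (x (k / 2)) → ¬ Mem y (x (s (k / 2))) := by
    constructor
    · intro h y hy h'; exact h hy ((key _ _ hy).2 h')
    · intro h y hy h'; exact h y hy ((key _ _ hy).1 h')
  by_cases hk : Even k
  · rw [if_pos hk, if_pos (Nat.even_iff.1 hk)]
    simp only [e1]
  · rw [if_neg hk, if_neg (fun h => hk (Nat.even_iff.2 h))]
    simp only [e2]

end model

theorem p_cod : P_COD.{u} := by
  intro M _ _ _ x hx e he a hea
  exact ⟨Ac x a, ce_Px x a, ce_Gr x a, tr_sh hx he hea⟩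

end Pool.Agent.W2helper59.MC
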